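import Mathlib

/-! # Erasing sparse binary digits -/

set_option autoImplicit false

open MeasureTheory Filter Topology Set

namespace Pool.Agent.K4H47.UN

/-- The binary digit of `u` at position `n + 1`. -/
noncomputable def dig (n : ℕ) (u : ℝ) : ℤ := ⌊(2:ℝ) ^ (n + 1) * u⌋ - 2 * ⌊(2:ℝ) ^ n * u⌋

/-- The remainder of `u` after `n` binary digits. -/
noncomputable def rho (n : ℕ) (u : ℝ) : ℝ := u - ⌊(2:ℝ) ^ n * u⌋ / 2 ^ n

lemma dig_mem (n : ℕ) (u : ℝ) : dig n u = 0 ∨ dig n u = 1 := by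
  have h1 : (2:ℝ) ^ (n + 1) * u = 2 * ((2:ℝ) ^ n * u) := by ring
  unfold dig
  rw [h1]
  obtain ⟨y, hy⟩ : ∃ y, y = (2:ℝ) ^ n * u := ⟨_, rfl⟩
  rw [← hy]
  have h2 := Int.floor_le y
  have h3 := Int.lt_floor_add_one y
  have h4 : 2 * ⌊y⌋ ≤ ⌊2 * y⌋ := by
    rw [Int.le_floor]; push_cast; linarith
  have h5 : ⌊2 * y⌋ < 2 * ⌊y⌋ + 2 := by
    rw [Int.floor_lt]; push_cast; linarith
  omega

lemma dig_nonneg (n : ℕ) (u : ℝ) : (0:ℝ) ≤ dig n u := by
  rcases dig_mem n u with h | h <;> simp [h]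

lemma dig_le (n : ℕ) (u : ℝ) : (dig n u : ℝ) ≤ 1 := by
  rcases dig_mem n u with h | h <;> simp [h]

lemma rho_succ (n : ℕ) (u : ℝ) : rho n u = (dig n u : ℝ) / 2 ^ (n + 1) + rho (n + 1) u := by
  unfold rho dig
  push_cast
  rw [pow_succ]
  field_simp
  ring

lemma rho_nonneg (n : ℕ) (u : ℝ) : 0 ≤ rho n u := by
  unfold rho
  have h2 := Int.floor_le ((2:ℝ) ^ n * u)
  have : (⌊(2:ℝ) ^ n * u⌋ : ℝ) / 2 ^ n ≤ u := by
    rw [div_le_iff₀ (by positivity)]; linarith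
  linarith

lemma rho_lt (n : ℕ) (u : ℝ) : rho n u < 1 / 2 ^ n := by
  unfold rho
  have h2 := Int.lt_floor_add_one ((2:ℝ) ^ n * u)
  have : u < ((⌊(2:ℝ) ^ n * u⌋ : ℝ) + 1) / 2 ^ n := by
    rw [lt_div_iff₀ (by positivity)]; linarith
  rw [add_div] at this
  linarith

lemma rho_anti (u : ℝ) : Antitone (fun n => rho n u) := by
  apply antitone_nat_of_succ_le
  intro n
  have := rho_succ n u
  have h2 : (0:ℝ) ≤ (dig n u : ℝ) / 2 ^ (n + 1) := div_nonneg (dig_nonneg n u) (by positivity)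
  linarith

lemma rho_zero {u : ℝ} (h0 : 0 ≤ u) (h1 : u < 1) : rho 0 u = u := by
  unfold rho
  have : ⌊u⌋ = 0 := Int.floor_eq_zero_iff.mpr ⟨h0, h1⟩
  simp [this]

/-- `u` with the digits at the positions `a i + 1`, `i < k`, erased. -/
noncomputable def TT (a : ℕ → ℕ) (k : ℕ) (u : ℝ) : ℝ :=
  u - ∑ i ∈ Finset.range k, (dig (a i) u : ℝ) / 2 ^ (a i + 1)

lemma TT_succ (a : ℕ → ℕ) (k : ℕ) (u : ℝ) :
    TT a (k + 1) u = TT a k u - (dig (a k) u : ℝ) / 2 ^ (a k + 1) := by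
  unfold TT
  rw [Finset.sum_range_succ]; ring

lemma TT_anti (a : ℕ → ℕ) (u : ℝ) : Antitone (fun k => TT a k u) := by
  apply antitone_nat_of_succ_le
  intro k
  rw [TT_succ]
  have h2 : (0:ℝ) ≤ (dig (a k) u : ℝ) / 2 ^ (a k + 1) := div_nonneg (dig_nonneg _ u) (by positivity)
  linarith

lemma TT_sub_le {a : ℕ → ℕ} (ha : StrictMono a) (u : ℝ) {k m : ℕ} (h : k ≤ m) :
    TT a k u - TT a m u ≤ rho (a k) u - rho (a m) u := by
  induction m, h using Nat.le_induction with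
  | base => simp
  | succ m hm ih =>
    rw [TT_succ]
    have h1 := rho_succ (a m) u
    have h2 : rho (a (m + 1)) u ≤ rho (a m + 1) u := rho_anti u (ha (Nat.lt_succ_self m))
    linarith

/-- `u` with all the digits at the positions `a i + 1` erased. -/
noncomputable def T (a : ℕ → ℕ) (u : ℝ) : ℝ := u - ∑' i, (dig (a i) u : ℝ) / 2 ^ (a i + 1)

lemma summable_dig {a : ℕ → ℕ} (ha : StrictMono a) (u : ℝ) :
    Summable (fun i => (dig (a i) u : ℝ) / 2 ^ (a i + 1)) := by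
  refine Summable.of_nonneg_of_le (fun i => div_nonneg (dig_nonneg _ u) (by positivity))
    (fun i => ?_) (summable_geometric_of_lt_one (r := (1/2:ℝ)) (by norm_num) (by norm_num))
  have h1 := dig_le (a i) u
  have h2 : i ≤ a i := ha.id_le i
  rw [one_div, inv_pow, ← one_div]
  apply div_le_div₀ (by norm_num) h1 (by positivity)
  exact pow_le_pow_right₀ (by norm_num) (by omega)

lemma tendsto_TT {a : ℕ → ℕ} (ha : StrictMono a) (u : ℝ) :
    Tendsto (fun k => TT a k u) atTop (𝓝 (T a u)) := by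
  unfold TT T
  exact tendsto_const_nhds.sub (summable_dig ha u).hasSum.tendsto_sum_nat

lemma T_le_TT {a : ℕ → ℕ} (ha : StrictMono a) (u : ℝ) (k : ℕ) : T a u ≤ TT a k u := by
  refine le_of_tendsto (tendsto_TT ha u) ?_
  filter_upwards [eventually_ge_atTop k] with m hm
  exact TT_anti a u hm

lemma TT_sub_T_le {a : ℕ → ℕ} (ha : StrictMono a) (u : ℝ) (k : ℕ) :
    TT a k u - T a u ≤ rho (a k) u := by
  have h1 : Tendsto (fun m => TT a k u - TT a m u) atTop (𝓝 (TT a k u - T a u)) :=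
    tendsto_const_nhds.sub (tendsto_TT ha u)
  refine le_of_tendsto h1 ?_
  filter_upwards [eventually_ge_atTop k] with m hm
  have := TT_sub_le ha u hm
  have := rho_nonneg (a m) u
  linarith

lemma T_nonneg {a : ℕ → ℕ} (ha : StrictMono a) {u : ℝ} (h0 : 0 ≤ u) (h1 : u < 1) : 0 ≤ T a u := by
  have h := TT_sub_T_le ha u 0
  have h2 : rho (a 0) u ≤ rho 0 u := rho_anti u (Nat.zero_le _)
  rw [rho_zero h0 h1] at h2
  have h3 : TT a 0 u = u := by simp [TT]
  linarith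

lemma T_le {a : ℕ → ℕ} (ha : StrictMono a) (u : ℝ) : T a u ≤ u := by
  have h := T_le_TT ha u 0
  have h3 : TT a 0 u = u := by simp [TT]
  linarith

/-- The digit of `T u` at the position `a k + 1` is zero. -/
lemma T_digit {a : ℕ → ℕ} (ha : StrictMono a) (u : ℝ) (k : ℕ) :
    ∃ m : ℤ, ∃ θ : ℝ, 0 ≤ θ ∧ θ ≤ 1 / 2 ∧ (2:ℝ) ^ (a k) * T a u = m + θ := by
  refine ⟨⌊(2:ℝ) ^ (a k) * u⌋ - ∑ i ∈ Finset.range k, 2 ^ (a k - (a i + 1)) * dig (a i) u,
    (2:ℝ) ^ (a k) * (rho (a k + 1) u - (TT a (k + 1) u - T a u)), ?_, ?_, ?_⟩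
  · apply mul_nonneg (by positivity)
    have h1 := TT_sub_T_le ha u (k + 1)
    have h2 : rho (a (k + 1)) u ≤ rho (a k + 1) u := rho_anti u (ha (Nat.lt_succ_self k))
    linarith
  · have h1 := T_le_TT ha u (k + 1)
    have h2 := rho_lt (a k + 1) u
    have h3 : (2:ℝ) ^ (a k) * (1 / 2 ^ (a k + 1)) = 1 / 2 := by
      rw [pow_succ]; field_simp
    rw [← h3]
    apply mul_le_mul_of_nonneg_left _ (by positivity)
    linarith
  · have h1 : TT a (k + 1) u = u - (∑ i ∈ Finset.range k, (dig (a i) u : ℝ) / 2 ^ (a i + 1)) -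
        (dig (a k) u : ℝ) / 2 ^ (a k + 1) := by
      rw [TT_succ]; rfl
    have h2 : (2:ℝ) ^ (a k) * ∑ i ∈ Finset.range k, (dig (a i) u : ℝ) / 2 ^ (a i + 1) =
        ∑ i ∈ Finset.range k, 2 ^ (a k - (a i + 1)) * (dig (a i) u : ℝ) := by
      rw [Finset.mul_sum]
      refine Finset.sum_congr rfl fun i hi => ?_
      have hik : a i + 1 ≤ a k := ha (Finset.mem_range.mp hi)
      have : (2:ℝ) ^ (a k) = 2 ^ (a k - (a i + 1)) * 2 ^ (a i + 1) := by
        rw [← pow_add]; congr 1; omega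
      rw [this]
      field_simp
    have h3 := rho_succ (a k) u
    have h4 : (2:ℝ) ^ (a k) * rho (a k) u = 2 ^ (a k) * u - ⌊(2:ℝ) ^ (a k) * u⌋ := by
      unfold rho
      field_simp
    have h5 : (2:ℝ) ^ (a k) * T a u = 2 ^ (a k) * TT a (k + 1) u -
        2 ^ (a k) * (TT a (k + 1) u - T a u) := by ring
    have h6 : (2:ℝ) ^ (a k) * rho (a k + 1) u = 2 ^ (a k) * rho (a k) u -
        2 ^ (a k) * ((dig (a k) u : ℝ) / 2 ^ (a k + 1)) := by
      rw [h3]; ring
    push_cast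
    rw [mul_sub, h6, h4, ← h2]
    rw [h1]
    ring

lemma measurable_dig (n : ℕ) : Measurable (fun u => (dig n u : ℝ)) := by
  unfold dig
  push_cast
  apply Measurable.sub
  · exact measurable_from_top.comp (Int.measurable_floor.comp (by fun_prop : Measurable fun u : ℝ => (2:ℝ) ^ (n+1) * u))
  · apply Measurable.const_mul
    exact measurable_from_top.comp (Int.measurable_floor.comp (by fun_prop : Measurable fun u : ℝ => (2:ℝ) ^ n * u))

lemma measurable_TT (a : ℕ → ℕ) (k : ℕ) : Measurable (TT a k) := by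
  unfold TT
  apply Measurable.sub measurable_id
  apply Finset.measurable_sum
  intro i _
  exact (measurable_dig (a i)).div_const _

lemma measurable_T {a : ℕ → ℕ} (ha : StrictMono a) : Measurable (T a) :=
  measurable_of_tendsto_metrizable (f := fun k u => TT a k u) (measurable_TT a)
    (tendsto_pi_nhds.mpr fun u => tendsto_TT ha u)

end Pool.Agent.K4H47.UN
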