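import Mathlib
import Pool.Agent.K4H47.UN.Dig
import Pool.Agent.Y249.SU.Bump

/-! # Fourier coefficients of the law of `T` -/

set_option autoImplicit false

open MeasureTheory Filter Topology Set

namespace Pool.Agent.K4H47.UN

open Pool.Agent.Y249.SU (E norm_E E_add E_one continuous_E norm_integral_E_le)

lemma floor_dyadic {n m : ℕ} (h : m ≤ n) (p : ℕ) {u : ℝ} (h0 : (p:ℝ) / 2 ^ n ≤ u)
    (h1 : u < ((p:ℝ) + 1) / 2 ^ n) : ⌊(2:ℝ) ^ m * u⌋ = ⌊(2:ℝ) ^ m * ((p:ℝ) / 2 ^ n)⌋ := by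
  obtain ⟨j, rfl⟩ := Nat.exists_eq_add_of_le h
  have e1 : (2:ℝ) ^ m * ((p:ℝ) / 2 ^ (m + j)) = (p:ℝ) / 2 ^ j := by
    rw [pow_add]; field_simp
  have e2 : (2:ℝ) ^ m * (((p:ℝ) + 1) / 2 ^ (m + j)) = ((p:ℝ) + 1) / 2 ^ j := by
    rw [pow_add]; field_simp
  rw [e1]
  have h2 : (2:ℝ) ^ m * u < ((p:ℝ) + 1) / 2 ^ j := by
    rw [← e2]; exact mul_lt_mul_of_pos_left h1 (by positivity)
  have h3 : (p:ℝ) / 2 ^ j ≤ (2:ℝ) ^ m * u := by
    rw [← e1]; exact mul_le_mul_of_nonneg_left h0 (by positivity)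
  rw [Int.floor_eq_iff]
  refine ⟨(Int.floor_le _).trans h3, ?_⟩
  refine lt_of_lt_of_le h2 ?_
  have h4 := Int.lt_floor_add_one ((p:ℝ) / 2 ^ j)
  rw [div_lt_iff₀ (by positivity)] at h4
  rw [div_le_iff₀ (by positivity)]
  have h5 : (p : ℤ) < (⌊(p:ℝ) / 2 ^ j⌋ + 1) * 2 ^ j := by exact_mod_cast h4
  have h6 : (p : ℤ) + 1 ≤ (⌊(p:ℝ) / 2 ^ j⌋ + 1) * 2 ^ j := h5
  exact_mod_cast h6

lemma TT_dyadic {a : ℕ → ℕ} (ha : StrictMono a) (k : ℕ) (p : ℕ) {u : ℝ}
    (h0 : (p:ℝ) / 2 ^ (a k + 1) ≤ u) (h1 : u < ((p:ℝ) + 1) / 2 ^ (a k + 1)) :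
    TT a (k + 1) u = u + (TT a (k + 1) ((p:ℝ) / 2 ^ (a k + 1)) - (p:ℝ) / 2 ^ (a k + 1)) := by
  unfold TT
  have h2 : ∀ i ∈ Finset.range (k + 1), (dig (a i) u : ℝ) / 2 ^ (a i + 1) =
      (dig (a i) ((p:ℝ) / 2 ^ (a k + 1)) : ℝ) / 2 ^ (a i + 1) := by
    intro i hi
    have hik : a i ≤ a k := ha.monotone (Nat.lt_succ_iff.mp (Finset.mem_range.mp hi))
    congr 2
    unfold dig
    rw [floor_dyadic (by omega : a i + 1 ≤ a k + 1) p h0 h1,
      floor_dyadic (by omega : a i ≤ a k + 1) p h0 h1]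
  rw [Finset.sum_congr rfl h2]
  ring

/-- The bound for the Fourier coefficients of the law of `TT a (k+1)`. -/
lemma norm_int_TT {a : ℕ → ℕ} (ha : StrictMono a) (k : ℕ) {L : ℤ} (hL : L ≠ 0) :
    ‖∫ u in (0:ℝ)..1, E L (TT a (k + 1) u)‖ ≤ 2 ^ (a k + 1) * (1 / (Real.pi * |(L:ℝ)|)) := by
  obtain ⟨n, hn⟩ : ∃ n, n = a k + 1 := ⟨_, rfl⟩
  have hmeas : Measurable (fun u => E L (TT a (k + 1) u)) :=
    (continuous_E L).measurable.comp (measurable_TT a (k + 1))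
  have hint : ∀ x y : ℝ, IntervalIntegrable (fun u => E L (TT a (k + 1) u)) volume x y := by
    intro x y
    rw [intervalIntegrable_iff]
    refine Measure.integrableOn_of_bounded (M := 1) (by simp [uIoc]) hmeas.aestronglyMeasurable ?_
    exact Eventually.of_forall fun u => (norm_E L _).le
  have h1 : ∫ u in (0:ℝ)..1, E L (TT a (k + 1) u) =
      ∑ p ∈ Finset.range (2 ^ n), ∫ u in ((p:ℝ) / 2 ^ n)..(((p + 1 : ℕ):ℝ) / 2 ^ n),
        E L (TT a (k + 1) u) := by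
    rw [intervalIntegral.sum_integral_adjacent_intervals (a := fun p : ℕ => (p:ℝ) / 2 ^ n)
      (fun p _ => hint _ _)]
    simp
  rw [h1]
  refine (norm_sum_le _ _).trans ?_
  have h2 : ∀ p ∈ Finset.range (2 ^ n), ‖∫ u in ((p:ℝ) / 2 ^ n)..(((p + 1 : ℕ):ℝ) / 2 ^ n),
        E L (TT a (k + 1) u)‖ ≤ 1 / (Real.pi * |(L:ℝ)|) := by
    intro p _
    obtain ⟨c, hc⟩ : ∃ c, c = TT a (k + 1) ((p:ℝ) / 2 ^ n) - (p:ℝ) / 2 ^ n := ⟨_, rfl⟩
    have h3 : ∫ u in ((p:ℝ) / 2 ^ n)..(((p + 1 : ℕ):ℝ) / 2 ^ n), E L (TT a (k + 1) u) =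
        ∫ u in ((p:ℝ) / 2 ^ n)..(((p + 1 : ℕ):ℝ) / 2 ^ n), E L (u + c) := by
      apply intervalIntegral.integral_congr_ae
      have hne : ∀ᵐ u : ℝ, u ≠ ((p + 1 : ℕ):ℝ) / 2 ^ n := by
        rw [ae_iff]; simp
      filter_upwards [hne] with u hu hmem
      have hle : (p:ℝ) / 2 ^ n ≤ ((p + 1 : ℕ):ℝ) / 2 ^ n := by
        gcongr; simp
      rw [uIoc_of_le hle] at hmem
      congr 1
      rw [hc, hn]
      apply TT_dyadic ha k p
      · rw [← hn]; exact hmem.1.le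
      · rw [← hn]
        have := lt_of_le_of_ne hmem.2 hu
        push_cast at this
        exact this
    rw [h3, intervalIntegral.integral_comp_add_right (fun u => E L u)]
    exact norm_integral_E_le L hL _ _
  refine (Finset.sum_le_sum h2).trans ?_
  rw [Finset.sum_const, Finset.card_range, nsmul_eq_mul, hn]
  push_cast
  exact le_rfl

lemma E_lip (L : ℤ) (x y : ℝ) : ‖E L x - E L y‖ ≤ 7 * (|(L:ℝ)| * |x - y|) := by
  have h1 : E L x - E L y = E L y * (E L (x - y) - 1) := by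
    rw [mul_sub, mul_one, ← E_add]; congr 2; ring
  have h2 : E L (x - y) = Complex.exp (Complex.I * ((2 * Real.pi * L * (x - y) : ℝ) : ℂ)) := by
    unfold E
    congr 1
    push_cast; ring
  rw [h1, norm_mul, norm_E, one_mul, h2]
  refine (Real.norm_exp_I_mul_ofReal_sub_one_le).trans ?_
  rw [Real.norm_eq_abs, abs_mul, abs_mul, abs_of_pos (by positivity : 0 < 2 * Real.pi)]
  have h3 := Real.pi_lt_d2
  have h4 : 0 ≤ |(L:ℝ)| * |x - y| := by positivity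
  nlinarith

/-- The modulus of the Fourier coefficients of the law of `T`. -/
noncomputable def J (a : ℕ → ℕ) (L : ℤ) : ℝ := ‖∫ u in (0:ℝ)..1, E L (T a u)‖

lemma intervalIntegrable_ET {a : ℕ → ℕ} (ha : StrictMono a) (L : ℤ) (x y : ℝ) :
    IntervalIntegrable (fun u => E L (T a u)) volume x y := by
  have hmeas : Measurable (fun u => E L (T a u)) :=
    (continuous_E L).measurable.comp (measurable_T ha)
  rw [intervalIntegrable_iff]
  refine Measure.integrableOn_of_bounded (M := 1) (by simp [uIoc]) hmeas.aestronglyMeasurable ?_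
  exact Eventually.of_forall fun u => (norm_E L _).le

lemma intervalIntegrable_ETT (a : ℕ → ℕ) (k : ℕ) (L : ℤ) (x y : ℝ) :
    IntervalIntegrable (fun u => E L (TT a k u)) volume x y := by
  have hmeas : Measurable (fun u => E L (TT a k u)) :=
    (continuous_E L).measurable.comp (measurable_TT a k)
  rw [intervalIntegrable_iff]
  refine Measure.integrableOn_of_bounded (M := 1) (by simp [uIoc]) hmeas.aestronglyMeasurable ?_
  exact Eventually.of_forall fun u => (norm_E L _).le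

lemma J_le_one {a : ℕ → ℕ} (L : ℤ) : J a L ≤ 1 := by
  unfold J
  refine (intervalIntegral.norm_integral_le_of_norm_le_const (C := 1) fun u _ =>
    (norm_E L _).le).trans ?_
  simp

lemma J_le {a : ℕ → ℕ} (ha : StrictMono a) (k : ℕ) {L : ℤ} (hL : L ≠ 0) :
    J a L ≤ 2 ^ (a k + 1) * (1 / (Real.pi * |(L:ℝ)|)) + 7 * |(L:ℝ)| / 2 ^ (a (k + 1)) := by
  have h1 := norm_int_TT ha k hL
  have h2 : ‖(∫ u in (0:ℝ)..1, E L (T a u)) - ∫ u in (0:ℝ)..1, E L (TT a (k + 1) u)‖ ≤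
      7 * |(L:ℝ)| / 2 ^ (a (k + 1)) := by
    rw [← intervalIntegral.integral_sub (intervalIntegrable_ET ha L _ _)
      (intervalIntegrable_ETT a (k + 1) L _ _)]
    refine (intervalIntegral.norm_integral_le_of_norm_le_const
      (C := 7 * |(L:ℝ)| / 2 ^ (a (k + 1))) fun u _ => ?_).trans ?_
    · refine (E_lip L _ _).trans ?_
      have h3 := T_le_TT ha u (k + 1)
      have h4 := TT_sub_T_le ha u (k + 1)
      have h5 := rho_lt (a (k + 1)) u
      rw [abs_sub_comm, abs_of_nonneg (by linarith : 0 ≤ TT a (k + 1) u - T a u)]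
      have h6 : TT a (k + 1) u - T a u ≤ 1 / 2 ^ (a (k + 1)) := by linarith
      calc 7 * (|(L:ℝ)| * (TT a (k + 1) u - T a u)) ≤ 7 * (|(L:ℝ)| * (1 / 2 ^ (a (k + 1)))) := by
            gcongr
        _ = _ := by ring
    · simp
  have h3 := norm_sub_norm_le (∫ u in (0:ℝ)..1, E L (T a u)) (∫ u in (0:ℝ)..1, E L (TT a (k + 1) u))
  unfold J
  linarith

end Pool.Agent.K4H47.UN
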