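import Mathlib
import Pool.Agent.K4H47.UN.Fou

/-! # Second moments of the exponential sums -/

set_option autoImplicit false

open MeasureTheory Filter Topology Set

namespace Pool.Agent.K4H47.UN

open Pool.Agent.Y249.SU (E norm_E E_add E_add_left E_one continuous_E conj_E)

lemma exists_kappa {a : ℕ → ℕ} (ha : StrictMono a) (ha0 : a 0 = 0) {b : ℕ} (hb : 2 ≤ b) :
    ∃ κ : ℕ → ℕ, Monotone κ ∧ (∀ i, 2 ^ (a (κ i)) ≤ b ^ i) ∧ (∀ i, b ^ i < 2 ^ (a (κ i + 1))) := by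
  classical
  have key : ∀ i k, 2 ^ (a k) ≤ b ^ i → k ≤ b ^ i := by
    intro i k h
    have h1 : k ≤ a k := ha.id_le k
    have h2 : a k < 2 ^ (a k) := Nat.lt_two_pow_self
    omega
  refine ⟨fun i => Nat.findGreatest (fun k => 2 ^ (a k) ≤ b ^ i) (b ^ i), ?_, ?_, ?_⟩
  · intro i j hij
    apply Nat.le_findGreatest
    · have h1 : Nat.findGreatest (fun k => 2 ^ (a k) ≤ b ^ i) (b ^ i) ≤ b ^ i := Nat.findGreatest_le _
      exact h1.trans (Nat.pow_le_pow_right (by omega) hij)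
    · have h1 : 2 ^ (a (Nat.findGreatest (fun k => 2 ^ (a k) ≤ b ^ i) (b ^ i))) ≤ b ^ i :=
        Nat.findGreatest_spec (P := fun k => 2 ^ (a k) ≤ b ^ i) (Nat.zero_le _)
          (by simp only [ha0, pow_zero]; exact Nat.one_le_pow _ _ (by omega))
      exact h1.trans (Nat.pow_le_pow_right (by omega) hij)
  · intro i
    exact Nat.findGreatest_spec (P := fun k => 2 ^ (a k) ≤ b ^ i) (Nat.zero_le _)
          (by simp only [ha0, pow_zero]; exact Nat.one_le_pow _ _ (by omega))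
  · intro i
    by_contra hcon
    push Not at hcon
    have h1 := Nat.le_findGreatest (P := fun k => 2 ^ (a k) ≤ b ^ i) (key i _ hcon) hcon
    omega

section
variable {a κ : ℕ → ℕ} {b : ℕ} (hb : 2 ≤ b) (hκ : Monotone κ)
  (h1 : ∀ i, 2 ^ (a (κ i)) ≤ b ^ i) (h2 : ∀ i, b ^ i < 2 ^ (a (κ i + 1)))
include hb hκ h1

lemma sumA (N : ℕ) : (∑ i ∈ Finset.range N, (2:ℝ) ^ (a (κ i)) / (b:ℝ) ^ i) +
    2 * (2:ℝ) ^ (a (κ N)) / (b:ℝ) ^ N ≤ 2 * ((κ N : ℝ) + 1) := by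
  have hb2 : (2:ℝ) ≤ b := by exact_mod_cast hb
  have hr : ∀ i, (2:ℝ) ^ (a (κ i)) / (b:ℝ) ^ i ≤ 1 := by
    intro i
    rw [div_le_one (by positivity)]
    exact_mod_cast h1 i
  induction N with
  | zero =>
    have := hr 0
    have h3 : (0:ℝ) ≤ κ 0 := Nat.cast_nonneg _
    simp only [Finset.range_zero, Finset.sum_empty, zero_add]
    have e : 2 * (2:ℝ) ^ (a (κ 0)) / (b:ℝ) ^ 0 = 2 * ((2:ℝ) ^ (a (κ 0)) / (b:ℝ) ^ 0) := by ring
    rw [e]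
    linarith
  | succ N ih =>
    rw [Finset.sum_range_succ]
    have e : ∀ i, 2 * (2:ℝ) ^ (a (κ i)) / (b:ℝ) ^ i = 2 * ((2:ℝ) ^ (a (κ i)) / (b:ℝ) ^ i) :=
      fun i => by ring
    rw [e] at ih ⊢
    rcases (hκ (Nat.le_succ N)).lt_or_eq with h | h
    · have h3 := hr (N + 1)
      have h4 : (0:ℝ) ≤ (2:ℝ) ^ (a (κ N)) / (b:ℝ) ^ N := by positivity
      have h5 : (κ N : ℝ) + 1 ≤ κ (N + 1) := by exact_mod_cast h
      linarith
    · rw [Nat.succ_eq_add_one] at h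
      rw [← h]
      have h3 : (2:ℝ) ^ (a (κ N)) / (b:ℝ) ^ (N + 1) ≤ ((2:ℝ) ^ (a (κ N)) / (b:ℝ) ^ N) / 2 := by
        rw [pow_succ, div_div]
        gcongr
      linarith

include h2

omit h1 in
lemma sumB (N : ℕ) : (∑ i ∈ Finset.range N, (b:ℝ) ^ i / (2:ℝ) ^ (a (κ i + 1))) ≤
    2 * (κ N : ℝ) + (b:ℝ) ^ N / (2:ℝ) ^ (a (κ N + 1)) := by
  have hb2 : (2:ℝ) ≤ b := by exact_mod_cast hb
  have hr : ∀ i, (b:ℝ) ^ i / (2:ℝ) ^ (a (κ i + 1)) ≤ 1 := by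
    intro i
    rw [div_le_one (by positivity)]
    exact_mod_cast (h2 i).le
  induction N with
  | zero => simp only [Finset.range_zero, Finset.sum_empty]; positivity
  | succ N ih =>
    rw [Finset.sum_range_succ]
    rcases (hκ (Nat.le_succ N)).lt_or_eq with h | h
    · have h3 := hr N
      have h4 : (0:ℝ) ≤ (b:ℝ) ^ (N + 1) / (2:ℝ) ^ (a (κ (N + 1) + 1)) := by positivity
      have h5 : (κ N : ℝ) + 1 ≤ κ (N + 1) := by exact_mod_cast h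
      linarith
    · rw [Nat.succ_eq_add_one] at h
      rw [← h]
      have h3 : 2 * ((b:ℝ) ^ N / (2:ℝ) ^ (a (κ N + 1))) ≤ (b:ℝ) ^ (N + 1) / (2:ℝ) ^ (a (κ N + 1)) := by
        rw [pow_succ, ← mul_div_assoc]
        have h4 : 2 * (b:ℝ) ^ N ≤ (b:ℝ) ^ N * b := by
          have : (0:ℝ) ≤ (b:ℝ) ^ N := by positivity
          nlinarith
        exact div_le_div_of_nonneg_right h4 (by positivity)
      linarith

end

/-- The bound for the off-diagonal terms. -/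
noncomputable def W (a κ : ℕ → ℕ) (b h i : ℕ) : ℝ :=
  2 * ((2:ℝ) ^ (a (κ i)) / (b:ℝ) ^ i) + 7 * h * ((b:ℝ) ^ i / (2:ℝ) ^ (a (κ i + 1)))

lemma W_nonneg (a κ : ℕ → ℕ) (b h i : ℕ) : 0 ≤ W a κ b h i := by unfold W; positivity

lemma sumW {a κ : ℕ → ℕ} {b h : ℕ} (hb : 2 ≤ b) (hκ : Monotone κ)
    (h1 : ∀ i, 2 ^ (a (κ i)) ≤ b ^ i) (h2 : ∀ i, b ^ i < 2 ^ (a (κ i + 1))) (N : ℕ) :
    ∑ i ∈ Finset.range N, W a κ b h i ≤ (4 + 14 * h) * ((κ N : ℝ) + 1) := by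
  unfold W
  rw [Finset.sum_add_distrib, ← Finset.mul_sum, ← Finset.mul_sum]
  have hA := sumA hb hκ h1 N
  have hB := sumB hb hκ h2 N
  have h3 : (b:ℝ) ^ N / (2:ℝ) ^ (a (κ N + 1)) ≤ 1 := by
    rw [div_le_one (by positivity)]
    exact_mod_cast (h2 N).le
  have h4 : (0:ℝ) ≤ 2 * (2:ℝ) ^ (a (κ N)) / (b:ℝ) ^ N := by positivity
  have h5 : (0:ℝ) ≤ (κ N : ℝ) := Nat.cast_nonneg _
  have h6 : (0:ℝ) ≤ (h : ℝ) := Nat.cast_nonneg _
  have h7 : (7 * (h:ℝ)) * (∑ i ∈ Finset.range N, (b:ℝ) ^ i / (2:ℝ) ^ (a (κ i + 1))) ≤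
      (7 * (h:ℝ)) * (2 * κ N + 1) := by
    apply mul_le_mul_of_nonneg_left _ (by positivity)
    linarith
  nlinarith

lemma J_pow_le {a κ : ℕ → ℕ} (ha : StrictMono a) {b h : ℕ} (hb : 2 ≤ b) (hh : 1 ≤ h)
    {i j : ℕ} (hij : j < i) (L : ℤ) (hL : |(L:ℝ)| = h * ((b:ℝ) ^ i - (b:ℝ) ^ j)) :
    J a L ≤ W a κ b h i := by
  have hb2 : (2:ℝ) ≤ b := by exact_mod_cast hb
  have hh1 : (1:ℝ) ≤ h := by exact_mod_cast hh
  have hbi : (0:ℝ) < (b:ℝ) ^ i := by positivity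
  have hbj : (0:ℝ) < (b:ℝ) ^ j := by positivity
  have h1 : 2 * (b:ℝ) ^ j ≤ (b:ℝ) ^ i := by
    calc 2 * (b:ℝ) ^ j ≤ b * (b:ℝ) ^ j := by gcongr
      _ = (b:ℝ) ^ (j + 1) := by ring
      _ ≤ (b:ℝ) ^ i := pow_le_pow_right₀ (by linarith) hij
  have h2 : (h:ℝ) * (b:ℝ) ^ i / 2 ≤ |(L:ℝ)| := by
    rw [hL]
    nlinarith
  have h3 : |(L:ℝ)| ≤ h * (b:ℝ) ^ i := by
    rw [hL]
    nlinarith
  have hpos : 0 < (h:ℝ) * (b:ℝ) ^ i / 2 := by positivity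
  have hL0 : L ≠ 0 := by
    rintro rfl
    simp only [Int.cast_zero, abs_zero] at h2
    linarith
  refine (J_le ha (κ i) hL0).trans ?_
  unfold W
  have hpi := Real.pi_gt_three
  gcongr ?_ + ?_
  · calc (2:ℝ) ^ (a (κ i) + 1) * (1 / (Real.pi * |(L:ℝ)|))
        ≤ (2:ℝ) ^ (a (κ i) + 1) * (1 / (3 * ((b:ℝ) ^ i / 2))) := by
          gcongr
          refine le_trans ?_ h2
          have : (b:ℝ) ^ i ≤ h * (b:ℝ) ^ i := by nlinarith
          linarith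
      _ = (4 / 3) * ((2:ℝ) ^ (a (κ i)) / (b:ℝ) ^ i) := by
          rw [pow_succ]; field_simp; ring
      _ ≤ 2 * ((2:ℝ) ^ (a (κ i)) / (b:ℝ) ^ i) := by
          have : (0:ℝ) ≤ (2:ℝ) ^ (a (κ i)) / (b:ℝ) ^ i := by positivity
          linarith
  · calc 7 * |(L:ℝ)| / 2 ^ (a (κ i + 1)) ≤ 7 * (h * (b:ℝ) ^ i) / 2 ^ (a (κ i + 1)) := by gcongr
      _ = _ := by ring

/-- The exponential sums. -/
noncomputable def SS (b h N : ℕ) (x : ℝ) : ℂ :=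
  ∑ j ∈ Finset.range N, E ((h:ℤ) * (b:ℤ) ^ j) x

lemma normSq_SS (b h N : ℕ) (x : ℝ) : ((‖SS b h N x‖ ^ 2 : ℝ) : ℂ) =
    ∑ i ∈ Finset.range N, ∑ j ∈ Finset.range N,
      E ((h:ℤ) * (b:ℤ) ^ i - (h:ℤ) * (b:ℤ) ^ j) x := by
  have h1 : ((‖SS b h N x‖ ^ 2 : ℝ) : ℂ) = SS b h N x * (starRingEnd ℂ) (SS b h N x) := by
    rw [Complex.mul_conj, Complex.normSq_eq_norm_sq]
  rw [h1, SS, map_sum, Finset.sum_mul_sum]
  refine Finset.sum_congr rfl fun i _ => Finset.sum_congr rfl fun j _ => ?_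
  have h2 := conj_E (-((h:ℤ) * (b:ℤ) ^ j)) x
  rw [neg_neg] at h2
  rw [h2, sub_eq_add_neg, E_add_left]

lemma moment {a κ : ℕ → ℕ} (ha : StrictMono a) {b h : ℕ} (hb : 2 ≤ b) (hh : 1 ≤ h)
    (hκ : Monotone κ) (h1 : ∀ i, 2 ^ (a (κ i)) ≤ b ^ i) (h2 : ∀ i, b ^ i < 2 ^ (a (κ i + 1)))
    (N : ℕ) : ∫ u in (0:ℝ)..1, ‖SS b h N (T a u)‖ ^ 2 ≤ N * ((9 + 28 * h) * ((κ N : ℝ) + 1)) := by
  have hcast : ((∫ u in (0:ℝ)..1, ‖SS b h N (T a u)‖ ^ 2 : ℝ) : ℂ) =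
      ∑ i ∈ Finset.range N, ∑ j ∈ Finset.range N,
        ∫ u in (0:ℝ)..1, E ((h:ℤ) * (b:ℤ) ^ i - (h:ℤ) * (b:ℤ) ^ j) (T a u) := by
    rw [← intervalIntegral.integral_ofReal]
    simp only [normSq_SS]
    rw [intervalIntegral.integral_finsetSum]
    · refine Finset.sum_congr rfl fun i _ => ?_
      rw [intervalIntegral.integral_finsetSum]
      exact fun j _ => intervalIntegrable_ET ha _ _ _
    · intro i _
      have := IntervalIntegrable.sum (μ := volume) (a := (0:ℝ)) (b := 1) (Finset.range N)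
        (f := fun j u => E ((h:ℤ) * (b:ℤ) ^ i - (h:ℤ) * (b:ℤ) ^ j) (T a u))
        (fun j _ => intervalIntegrable_ET ha _ _ _)
      have e : (fun u => ∑ j ∈ Finset.range N, E ((h:ℤ) * (b:ℤ) ^ i - (h:ℤ) * (b:ℤ) ^ j) (T a u)) =
          ∑ j ∈ Finset.range N, fun u => E ((h:ℤ) * (b:ℤ) ^ i - (h:ℤ) * (b:ℤ) ^ j) (T a u) := by
        ext u
        rw [Finset.sum_apply]
      rw [e]
      exact this
  have h3 : ∫ u in (0:ℝ)..1, ‖SS b h N (T a u)‖ ^ 2 ≤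
      ∑ i ∈ Finset.range N, ∑ j ∈ Finset.range N, J a ((h:ℤ) * (b:ℤ) ^ i - (h:ℤ) * (b:ℤ) ^ j) := by
    calc ∫ u in (0:ℝ)..1, ‖SS b h N (T a u)‖ ^ 2
        ≤ ‖((∫ u in (0:ℝ)..1, ‖SS b h N (T a u)‖ ^ 2 : ℝ) : ℂ)‖ := by
          rw [Complex.norm_real, Real.norm_eq_abs]; exact le_abs_self _
      _ ≤ _ := by
          rw [hcast]
          refine (norm_sum_le _ _).trans (Finset.sum_le_sum fun i _ => ?_)
          exact norm_sum_le _ _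
  have h4 : ∀ i ∈ Finset.range N, ∀ j ∈ Finset.range N,
      J a ((h:ℤ) * (b:ℤ) ^ i - (h:ℤ) * (b:ℤ) ^ j) ≤
        (if i = j then 1 else 0) + W a κ b h i + W a κ b h j := by
    intro i _ j _
    have hWi := W_nonneg a κ b h i
    have hWj := W_nonneg a κ b h j
    rcases lt_trichotomy i j with hij | hij | hij
    · rw [if_neg hij.ne]
      have h5 : |(((h:ℤ) * (b:ℤ) ^ i - (h:ℤ) * (b:ℤ) ^ j : ℤ) : ℝ)| =
          h * ((b:ℝ) ^ j - (b:ℝ) ^ i) := by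
        push_cast
        rw [← mul_sub, abs_mul, abs_sub_comm, abs_of_nonneg (Nat.cast_nonneg h), abs_of_nonneg]
        have : (b:ℝ) ^ i ≤ (b:ℝ) ^ j := pow_le_pow_right₀ (by exact_mod_cast (by omega : 1 ≤ b)) hij.le
        linarith
      have := J_pow_le (κ := κ) ha hb hh hij _ h5
      linarith
    · rw [if_pos hij]
      have := J_le_one (a := a) ((h:ℤ) * (b:ℤ) ^ i - (h:ℤ) * (b:ℤ) ^ j)
      linarith
    · rw [if_neg hij.ne']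
      have h5 : |(((h:ℤ) * (b:ℤ) ^ i - (h:ℤ) * (b:ℤ) ^ j : ℤ) : ℝ)| =
          h * ((b:ℝ) ^ i - (b:ℝ) ^ j) := by
        push_cast
        rw [← mul_sub, abs_mul, abs_of_nonneg (Nat.cast_nonneg h), abs_of_nonneg]
        have : (b:ℝ) ^ j ≤ (b:ℝ) ^ i := pow_le_pow_right₀ (by exact_mod_cast (by omega : 1 ≤ b)) hij.le
        linarith
      have := J_pow_le (κ := κ) ha hb hh hij _ h5
      linarith
  refine h3.trans ((Finset.sum_le_sum fun i hi => Finset.sum_le_sum fun j hj =>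
    h4 i hi j hj).trans ?_)
  simp only [Finset.sum_add_distrib, Finset.sum_ite_eq, Finset.sum_const, Finset.card_range,
    nsmul_eq_mul]
  rw [← Finset.mul_sum]
  have h6 : ∑ x ∈ Finset.range N, (if x ∈ Finset.range N then (1:ℝ) else 0) = N := by
    rw [Finset.sum_congr rfl (fun x hx => if_pos hx)]
    simp
  rw [h6]
  have h7 := sumW (h := h) hb hκ h1 h2 N
  have h8 : (0:ℝ) ≤ N := Nat.cast_nonneg _
  have h9 : (0:ℝ) ≤ κ N := Nat.cast_nonneg _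
  have h10 := mul_le_mul_of_nonneg_left h7 h8
  have h11 : (0:ℝ) ≤ N * κ N := by positivity
  nlinarith

end Pool.Agent.K4H47.UN
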