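import Mathlib
import Pool.Agent.K4H47.UN.Mom
import Pool.Agent.H493R3.Digits

/-! # Almost every value of `T` is absolutely normal -/

set_option autoImplicit false

open MeasureTheory Filter Topology Set

namespace Pool.Agent.K4H47.UN

open Pool.Agent.Y249.SU (E norm_E E_add E_add_left E_one continuous_E conj_E)

lemma bc {P : Measure ℝ} (f : ℕ → ℝ → ℝ) (hf : ∀ m, Measurable (f m)) (h0 : ∀ m u, 0 ≤ f m u)
    (hint : ∀ m, Integrable (f m) P) (c : ℕ → ℝ) (hc : Summable c)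
    (hle : ∀ m, ∫ u, f m u ∂P ≤ c m) : ∀ᵐ u ∂P, Tendsto (fun m => f m u) atTop (𝓝 0) := by
  have h1 : ∫⁻ u, ∑' m, ENNReal.ofReal (f m u) ∂P ≠ ⊤ := by
    rw [lintegral_tsum (fun m => (hf m).ennreal_ofReal.aemeasurable)]
    have h2 : ∀ m, ∫⁻ u, ENNReal.ofReal (f m u) ∂P ≤ ENNReal.ofReal (c m) := by
      intro m
      rw [← ofReal_integral_eq_lintegral_ofReal (hint m) (Eventually.of_forall (h0 m))]
      exact ENNReal.ofReal_le_ofReal (hle m)
    have hc0 : ∀ m, 0 ≤ c m := fun m => (integral_nonneg (h0 m)).trans (hle m)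
    refine ne_top_of_le_ne_top ?_ (ENNReal.tsum_le_tsum h2)
    rw [← ENNReal.ofReal_tsum_of_nonneg hc0 hc]
    exact ENNReal.ofReal_ne_top
  have h3 := ae_lt_top (Measurable.ennreal_tsum (fun m => (hf m).ennreal_ofReal)) h1
  filter_upwards [h3] with u hu
  have h4 := ENNReal.tendsto_atTop_zero_of_tsum_ne_top hu.ne
  have h5 := (ENNReal.tendsto_toReal ENNReal.zero_ne_top).comp h4
  simp only [ENNReal.toReal_zero] at h5
  refine h5.congr fun m => ?_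
  simp only [Function.comp]
  exact ENNReal.toReal_ofReal (h0 m u)

lemma interp (z : ℕ → ℂ) (hz : ∀ j, ‖z j‖ ≤ 1)
    (h : Tendsto (fun m : ℕ => ‖∑ j ∈ Finset.range (m ^ 2), z j‖ / ((m:ℝ) ^ 2)) atTop (𝓝 0)) :
    Tendsto (fun N : ℕ => ‖∑ j ∈ Finset.range N, z j‖ / (N:ℝ)) atTop (𝓝 0) := by
  have hs : Tendsto (fun N : ℕ => Nat.sqrt N) atTop atTop := by
    rw [tendsto_atTop]
    intro B
    filter_upwards [eventually_ge_atTop (B * B)] with N hN
    exact Nat.le_sqrt.mpr hN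
  have h1 : Tendsto (fun N : ℕ => ‖∑ j ∈ Finset.range ((Nat.sqrt N) ^ 2), z j‖ /
      (((Nat.sqrt N : ℕ):ℝ) ^ 2) + 2 / ((Nat.sqrt N : ℕ) : ℝ)) atTop (𝓝 0) := by
    have h2 := h.comp hs
    have h3 : Tendsto (fun N : ℕ => 2 / ((Nat.sqrt N : ℕ) : ℝ)) atTop (𝓝 0) :=
      (tendsto_const_nhds.div_atTop (tendsto_natCast_atTop_atTop.comp hs))
    have := h2.add h3
    rw [add_zero] at this
    exact this
  refine squeeze_zero' (Eventually.of_forall fun N => by positivity) ?_ h1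
  filter_upwards [eventually_ge_atTop 1] with N hN
  obtain ⟨m, hm⟩ : ∃ m, m = Nat.sqrt N := ⟨_, rfl⟩
  rw [← hm]
  have hm1 : m ^ 2 ≤ N := by rw [hm, pow_two]; exact Nat.sqrt_le N
  have hm2 : N ≤ m ^ 2 + 2 * m := by
    have := Nat.sqrt_le_add N
    rw [← hm] at this
    nlinarith
  have hm0 : 1 ≤ m := by
    rw [hm]; exact Nat.le_sqrt.mpr (by omega)
  have hsplit : ∑ j ∈ Finset.range N, z j = (∑ j ∈ Finset.range (m ^ 2), z j) +
      ∑ j ∈ Finset.Ico (m ^ 2) N, z j := (Finset.sum_range_add_sum_Ico _ hm1).symm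
  have h4 : ‖∑ j ∈ Finset.Ico (m ^ 2) N, z j‖ ≤ 2 * m := by
    refine (norm_sum_le _ _).trans ((Finset.sum_le_sum fun j _ => hz j).trans ?_)
    rw [Finset.sum_const, Nat.card_Ico, nsmul_eq_mul, mul_one]
    have : N - m ^ 2 ≤ 2 * m := by omega
    exact_mod_cast this
  have h5 : ‖∑ j ∈ Finset.range N, z j‖ ≤ ‖∑ j ∈ Finset.range (m ^ 2), z j‖ + 2 * m := by
    rw [hsplit]
    exact (norm_add_le _ _).trans (by linarith)
  have hmR : (1:ℝ) ≤ m := by exact_mod_cast hm0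
  have hNR : (m:ℝ) ^ 2 ≤ N := by exact_mod_cast hm1
  calc ‖∑ j ∈ Finset.range N, z j‖ / (N:ℝ)
      ≤ (‖∑ j ∈ Finset.range (m ^ 2), z j‖ + 2 * m) / (m:ℝ) ^ 2 := by
        gcongr
    _ = _ := by
        field_simp

lemma kappa_le {a κ : ℕ → ℕ} (hg : ∀ k, k ^ 4 ≤ a k) {b : ℕ} (hb : 2 ≤ b)
    (h1 : ∀ i, 2 ^ (a (κ i)) ≤ b ^ i) {m : ℕ} (hm : 1 ≤ m) :
    (κ (m ^ 2) : ℝ) + 1 ≤ 2 * b * Real.sqrt m := by
  have h2 : a (κ (m ^ 2)) ≤ b * m ^ 2 := by
    have h3 : 2 ^ (a (κ (m ^ 2))) ≤ 2 ^ (b * m ^ 2) := by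
      refine (h1 (m ^ 2)).trans ?_
      rw [pow_mul]
      exact Nat.pow_le_pow_left Nat.lt_two_pow_self.le _
    exact (Nat.pow_le_pow_iff_right (by norm_num)).mp h3
  have h4 : (κ (m ^ 2)) ^ 4 ≤ b * m ^ 2 := (hg _).trans h2
  have hbR : (2:ℝ) ≤ b := by exact_mod_cast hb
  have hmR : (1:ℝ) ≤ m := by exact_mod_cast hm
  have h5 : ((κ (m ^ 2) : ℝ)) ^ 4 ≤ (b * Real.sqrt m) ^ 4 := by
    have h6 : ((κ (m ^ 2) : ℝ)) ^ 4 ≤ b * (m:ℝ) ^ 2 := by exact_mod_cast h4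
    refine h6.trans ?_
    have h7 : (b * Real.sqrt m) ^ 4 = (b:ℝ) ^ 4 * (m:ℝ) ^ 2 := by
      have : Real.sqrt m ^ 2 = m := Real.sq_sqrt (by positivity)
      calc (b * Real.sqrt m) ^ 4 = (b:ℝ) ^ 4 * (Real.sqrt m ^ 2) ^ 2 := by ring
        _ = _ := by rw [this]
    rw [h7]
    have h8 : (b:ℝ) ≤ (b:ℝ) ^ 4 := le_self_pow₀ (by linarith) (by norm_num)
    gcongr
  have h6 : (κ (m ^ 2) : ℝ) ≤ b * Real.sqrt m :=
    le_of_pow_le_pow_left₀ (by norm_num) (by positivity) h5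
  have h7 : (1:ℝ) ≤ Real.sqrt m := Real.one_le_sqrt.mpr hmR
  nlinarith

lemma continuous_SS (b h N : ℕ) : Continuous (SS b h N) := by
  unfold SS
  exact continuous_finset_sum _ fun j _ => continuous_E _

lemma norm_SS_le (b h N : ℕ) (x : ℝ) : ‖SS b h N x‖ ≤ N := by
  unfold SS
  refine (norm_sum_le _ _).trans ?_
  simp [norm_E]

/-- Almost every `T u` has small exponential sums. -/
lemma ae_SS {a : ℕ → ℕ} (ha : StrictMono a) (ha0 : a 0 = 0) (hg : ∀ k, k ^ 4 ≤ a k) {b h : ℕ}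
    (hb : 2 ≤ b) (hh : 1 ≤ h) : ∀ᵐ u ∂(volume.restrict (Ioc (0:ℝ) 1)),
      Tendsto (fun N : ℕ => ‖SS b h N (T a u)‖ / (N:ℝ)) atTop (𝓝 0) := by
  obtain ⟨κ, hκ, h1, h2⟩ := exists_kappa ha ha0 hb
  have hmeas : ∀ m : ℕ, Measurable (fun u => ‖SS b h (m ^ 2) (T a u)‖ ^ 2 / ((m:ℝ) ^ 4)) := fun m =>
    ((((continuous_SS b h (m ^ 2)).measurable.comp (measurable_T ha)).norm).pow_const 2).div_const _
  have key := bc (P := volume.restrict (Ioc (0:ℝ) 1))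
    (fun m u => ‖SS b h (m ^ 2) (T a u)‖ ^ 2 / ((m:ℝ) ^ 4)) hmeas
    (fun m u => by positivity)
    (fun m => by
      refine Measure.integrableOn_of_bounded (M := ((m ^ 2 : ℕ) : ℝ) ^ 2 / ((m:ℝ) ^ 4)) (by simp)
        (hmeas m).aestronglyMeasurable ?_
      refine Eventually.of_forall fun u => ?_
      rw [Real.norm_eq_abs, abs_of_nonneg (by positivity)]
      gcongr
      exact norm_SS_le _ _ _ _)
    (fun m => ((9 + 28 * h) * (2 * b)) * (m:ℝ) ^ (-(3/2) : ℝ))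
    ((Real.summable_nat_rpow.mpr (by norm_num)).mul_left _)
    (fun m => by
      rcases Nat.eq_zero_or_pos m with hm | hm
      · subst hm
        simp
      have hmR : (0:ℝ) < m := by exact_mod_cast hm
      have h3 := moment (a := a) ha hb hh hκ h1 h2 (m ^ 2)
      rw [intervalIntegral.integral_of_le zero_le_one] at h3
      rw [integral_div]
      have h4 := kappa_le hg hb h1 (m := m) hm
      have h5 : (m:ℝ) ^ (-(3/2) : ℝ) = Real.sqrt m * (m:ℝ) ^ 2 / (m:ℝ) ^ 4 := by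
        rw [Real.sqrt_eq_rpow, ← Real.rpow_natCast, ← Real.rpow_natCast, ← Real.rpow_add hmR,
          ← Real.rpow_sub hmR]
        norm_num
      rw [h5]
      calc (∫ u in Ioc (0:ℝ) 1, ‖SS b h (m ^ 2) (T a u)‖ ^ 2) / (m:ℝ) ^ 4
          ≤ (((m ^ 2 : ℕ) : ℝ) * ((9 + 28 * h) * (2 * b * Real.sqrt m))) / (m:ℝ) ^ 4 := by
            gcongr
            refine h3.trans ?_
            gcongr
        _ = _ := by push_cast; ring)
  filter_upwards [key] with u hu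
  apply interp (fun j => E ((h:ℤ) * (b:ℤ) ^ j) (T a u)) (fun j => (norm_E _ _).le)
  have h3 := (Real.continuous_sqrt.tendsto 0).comp hu
  rw [Real.sqrt_zero] at h3
  refine h3.congr fun m => ?_
  simp only [Function.comp]
  have h4 : ‖SS b h (m ^ 2) (T a u)‖ ^ 2 / ((m:ℝ) ^ 4) =
      (‖SS b h (m ^ 2) (T a u)‖ / ((m:ℝ) ^ 2)) ^ 2 := by
    rw [div_pow, ← pow_mul]
  rw [h4, Real.sqrt_sq (by positivity)]
  rfl

/-- The block frequencies of a number whose exponential sums are small. -/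
lemma normal_of_SS {b : ℕ} (hb : 2 ≤ b) {x : ℝ}
    (hx : ∀ h : ℕ, 1 ≤ h → Tendsto (fun N : ℕ => ‖SS b h N x‖ / (N:ℝ)) atTop (𝓝 0))
    (k : ℕ) (w : Fin k → ℤ) (hw : ∀ j : Fin k, 0 ≤ w j ∧ w j < (b:ℤ)) :
    Tendsto (fun N : ℕ =>
      ((((Finset.range N).filter (fun i : ℕ =>
        ∀ j : Fin k, ⌊x * (b:ℝ) ^ (i + j.val + 1)⌋ % (b:ℤ) = w j)).card : ℝ) / (N:ℝ)))
      atTop (𝓝 (1 / (b:ℝ) ^ k)) := by
  have h1 := Pool.Agent.H493R3.block_freq b hb x (by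
    intro h hh
    refine (hx h hh).congr fun N => ?_
    unfold SS
    congr 2
    refine Finset.sum_congr rfl fun j _ => ?_
    unfold E Pool.Agent.H493R3.ee
    congr 1
    push_cast
    ring) k (fun j => ⟨(w j).toNat, by have := hw j; omega⟩)
  refine h1.congr fun N => ?_
  congr 3
  apply Finset.filter_congr
  intro i _
  apply forall_congr'
  intro j
  have h2 : i + 1 + (j:ℕ) = i + j.val + 1 := by omega
  rw [h2]
  have h3 : (((⟨(w j).toNat, by have := hw j; omega⟩ : Fin b) : ℕ) : ℤ) = w j := by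
    simp only
    exact Int.toNat_of_nonneg (hw j).1
  rw [h3]

end Pool.Agent.K4H47.UN
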