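import Mathlib
import Pool.Agent.K4H47.UN.Norm

/-! # The law of `T` and gauge functions -/

set_option autoImplicit false

open MeasureTheory Filter Topology Set

namespace Pool.Agent.K4H47.UN

lemma vol_preimage_le {a : ℕ → ℕ} (ha : StrictMono a) (k : ℕ) (s w : ℝ) (hw : 0 ≤ w) :
    volume {u : ℝ | T a u ∈ Icc s (s + w)} ≤ ENNReal.ofReal (2 ^ k * (w + 1 / 2 ^ (a k))) := by
  classical
  obtain ⟨c, hc⟩ : ∃ c : Finset ℕ → ℝ, c = fun S => ∑ i ∈ S, (1:ℝ) / 2 ^ (a i + 1) := ⟨_, rfl⟩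
  have hsub : {u : ℝ | T a u ∈ Icc s (s + w)} ⊆
      ⋃ S ∈ (Finset.range k).powerset, Icc (s + c S) (s + c S + (w + 1 / 2 ^ (a k))) := by
    intro u hu
    simp only [mem_iUnion, exists_prop]
    refine ⟨(Finset.range k).filter (fun i => dig (a i) u = 1), Finset.mem_powerset.mpr
      (Finset.filter_subset _ _), ?_⟩
    have h1 : TT a k u = u - c ((Finset.range k).filter (fun i => dig (a i) u = 1)) := by
      rw [hc]
      unfold TT
      simp only
      rw [Finset.sum_filter]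
      congr 1
      refine Finset.sum_congr rfl fun i _ => ?_
      rcases dig_mem (a i) u with h | h <;> simp [h]
    have h2 := T_le_TT ha u k
    have h3 := TT_sub_T_le ha u k
    have h4 := rho_lt (a k) u
    have h5 := hu.1
    have h6 := hu.2
    constructor <;> linarith
  refine (measure_mono hsub).trans ((measure_biUnion_finset_le _ _).trans ?_)
  simp only [Real.volume_Icc, add_sub_cancel_left]
  rw [Finset.sum_const, Finset.card_powerset, Finset.card_range, nsmul_eq_mul,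
    ENNReal.ofReal_mul (by positivity)]
  gcongr
  rw [ENNReal.ofReal_pow (by norm_num)]
  simp

/-- The law of `T`. -/
noncomputable def mu (a : ℕ → ℕ) : Measure ℝ := Measure.map (T a) (volume.restrict (Ioc (0:ℝ) 1))

lemma mu_Icc_le {a : ℕ → ℕ} (ha : StrictMono a) (k : ℕ) (s w : ℝ) (hw : 0 ≤ w) :
    mu a (Icc s (s + w)) ≤ ENNReal.ofReal (2 ^ k * (w + 1 / 2 ^ (a k))) := by
  unfold mu
  rw [Measure.map_apply (measurable_T ha) measurableSet_Icc]
  refine (Measure.restrict_apply_le _ _).trans ?_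
  exact vol_preimage_le ha k s w hw

lemma exists_a {φ : ℝ → ℝ} (h5 : Tendsto (fun r : ℝ => r / φ r) (𝓝[>] (0:ℝ)) (𝓝 0)) :
    ∃ a : ℕ → ℕ, StrictMono a ∧ a 0 = 0 ∧ (∀ k, k ^ 4 ≤ a k) ∧
      ∀ k, 1 ≤ k → ∀ r : ℝ, 0 < r → r ≤ 1 / 2 ^ (a k) → r / φ r ≤ 1 / 2 ^ k := by
  have h1 : ∀ k : ℕ, ∃ n : ℕ, ∀ r : ℝ, 0 < r → r ≤ 1 / 2 ^ n → r / φ r ≤ 1 / 2 ^ k := by
    intro k
    have h2 := h5.eventually (gt_mem_nhds (show (0:ℝ) < 1 / 2 ^ k by positivity))
    rw [eventually_nhdsWithin_iff, Metric.eventually_nhds_iff] at h2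
    obtain ⟨ε, hε, h3⟩ := h2
    obtain ⟨n, hn⟩ := exists_pow_lt_of_lt_one hε (show (1/2:ℝ) < 1 by norm_num)
    refine ⟨n, fun r hr hr2 => ?_⟩
    refine (h3 (y := r) ?_ hr).le
    rw [Real.dist_eq, sub_zero, abs_of_pos hr]
    rw [one_div, inv_pow, ← one_div] at hn
    linarith
  choose f hf using h1
  obtain ⟨a, ha⟩ : ∃ a : ℕ → ℕ, a = fun n => Nat.rec (motive := fun _ => ℕ) 0
    (fun k ak => max (ak + 1) (max ((k + 1) ^ 4) (f (k + 1)))) n := ⟨_, rfl⟩
  have ha0 : a 0 = 0 := by rw [ha]; rfl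
  have has : ∀ k, a (k + 1) = max (a k + 1) (max ((k + 1) ^ 4) (f (k + 1))) := by
    intro k; rw [ha]
  refine ⟨a, strictMono_nat_of_lt_succ fun k => ?_, ha0, fun k => ?_, fun k hk r hr hr2 => ?_⟩
  · rw [has]
    exact lt_of_lt_of_le (Nat.lt_succ_self _) (le_max_left _ _)
  · rcases Nat.eq_zero_or_pos k with h | h
    · subst h; simp
    · obtain ⟨j, rfl⟩ := Nat.exists_eq_add_of_le' h
      rw [has]
      exact (le_max_left _ _).trans (le_max_right _ _)
  · obtain ⟨j, rfl⟩ := Nat.exists_eq_add_of_le' hk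
    refine hf _ r hr (hr2.trans ?_)
    apply one_div_le_one_div_of_le (by positivity)
    apply pow_le_pow_right₀ (by norm_num)
    rw [has]
    exact (le_max_right _ _).trans (le_max_right _ _)

lemma mu_gauge {φ : ℝ → ℝ} (h3 : ∀ r : ℝ, 0 < r → 0 < φ r) {a : ℕ → ℕ} (ha : StrictMono a)
    (hg : ∀ k, 1 ≤ k → ∀ r : ℝ, 0 < r → r ≤ 1 / 2 ^ (a k) → r / φ r ≤ 1 / 2 ^ k)
    (x r : ℝ) (hr : 0 < r) (hr1 : r ≤ 1 / 2 ^ (a 1)) :
    mu a (Icc (x - r) (x + r)) ≤ ENNReal.ofReal (6 * φ r) := by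
  classical
  have hex : ∃ k, 1 / 2 ^ (a k) < r := by
    obtain ⟨n, hn⟩ := exists_pow_lt_of_lt_one hr (show (1/2:ℝ) < 1 by norm_num)
    refine ⟨n, lt_of_le_of_lt ?_ hn⟩
    rw [one_div, one_div, inv_pow]
    apply inv_anti₀ (by positivity)
    exact pow_le_pow_right₀ (by norm_num) (ha.id_le n)
  have hfind := Nat.find_spec hex
  have hge : 2 ≤ Nat.find hex := by
    by_contra hcon
    push Not at hcon
    have h4 : Nat.find hex ≤ 1 := by omega
    have h5 : (1:ℝ) / 2 ^ (a 1) ≤ 1 / 2 ^ (a (Nat.find hex)) := by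
      apply one_div_le_one_div_of_le (by positivity)
      exact pow_le_pow_right₀ (by norm_num) (ha.monotone h4)
    linarith
  obtain ⟨k, hk⟩ := Nat.exists_eq_add_of_le' (show 1 ≤ Nat.find hex by omega)
  have hk1 : 1 ≤ k := by omega
  have hk2 : r ≤ 1 / 2 ^ (a k) := by
    have := Nat.find_min hex (m := k) (by omega)
    push Not at this
    exact this
  rw [hk] at hfind
  have h6 := hg k hk1 r hr hk2
  rw [div_le_iff₀ (h3 r hr)] at h6
  have h7 := mu_Icc_le ha (k + 1) (x - r) (2 * r) (by linarith)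
  rw [show x - r + 2 * r = x + r by ring] at h7
  refine h7.trans (ENNReal.ofReal_le_ofReal ?_)
  calc (2:ℝ) ^ (k + 1) * (2 * r + 1 / 2 ^ (a (k + 1))) ≤ 2 ^ (k + 1) * (3 * r) := by
        gcongr; linarith
    _ ≤ 2 ^ (k + 1) * (3 * (1 / 2 ^ k * φ r)) := by gcongr
    _ = 6 * φ r := by
        rw [pow_succ]; field_simp; ring

lemma mu_le_mkMetric {φ : ℝ → ℝ} (h2 : φ 0 = 0) (h3 : ∀ r : ℝ, 0 < r → 0 < φ r)
    (h4 : Tendsto φ (𝓝[>] (0:ℝ)) (𝓝 0)) {a : ℕ → ℕ} (ha : StrictMono a)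
    (hg : ∀ k, 1 ≤ k → ∀ r : ℝ, 0 < r → r ≤ 1 / 2 ^ (a k) → r / φ r ≤ 1 / 2 ^ k) :
    (ENNReal.ofReal (1/6)) • mu a ≤
      Measure.mkMetric (fun r : ENNReal => ENNReal.ofReal (φ r.toReal)) := by
  have hmain : ∀ x r : ℝ, 0 < r → r ≤ 1 / 2 ^ (a 1) → ∀ s ⊆ Icc (x - r) (x + r),
      ((ENNReal.ofReal (1/6)) • mu a) s ≤ ENNReal.ofReal (φ r) := by
    intro x r hr hr1 s hs
    have h5 := (measure_mono hs).trans (mu_gauge h3 ha hg x r hr hr1)
    rw [Measure.smul_apply, smul_eq_mul]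
    calc ENNReal.ofReal (1/6) * mu a s ≤ ENNReal.ofReal (1/6) * ENNReal.ofReal (6 * φ r) := by
          gcongr
      _ = ENNReal.ofReal (φ r) := by
          rw [← ENNReal.ofReal_mul (by norm_num)]
          congr 1
          ring
  apply Measure.le_mkMetric _ _ (ENNReal.ofReal (1 / 2 ^ (a 1)))
  · exact ENNReal.ofReal_pos.mpr (by positivity)
  · intro s hs
    rcases s.eq_empty_or_nonempty with rfl | ⟨x, hx⟩
    · simp
    have hfin : Metric.ediam s ≠ ⊤ := ne_top_of_le_ne_top ENNReal.ofReal_ne_top hs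
    obtain ⟨r, hr⟩ : ∃ r, r = (Metric.ediam s).toReal := ⟨_, rfl⟩
    have hr0 : 0 ≤ r := by rw [hr]; exact ENNReal.toReal_nonneg
    have hr1 : r ≤ 1 / 2 ^ (a 1) := by
      rw [hr]
      exact ENNReal.toReal_le_of_le_ofReal (by positivity) hs
    have hsub : s ⊆ Icc (x - r) (x + r) := by
      intro y hy
      have h5 : edist y x ≤ Metric.ediam s := Metric.edist_le_ediam_of_mem hy hx
      rw [edist_dist] at h5
      have h6 : dist y x ≤ r := by
        rw [hr]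
        exact (ENNReal.ofReal_le_iff_le_toReal hfin).mp h5
      rw [Real.dist_eq, abs_le] at h6
      constructor <;> linarith [h6.1, h6.2]
    rw [← hr]
    rcases hr0.lt_or_eq with hpos | hzero
    · exact hmain x r hpos hr1 s hsub
    · rw [← hzero, h2, ENNReal.ofReal_zero]
      have h5 : Tendsto (fun r => ENNReal.ofReal (φ r)) (𝓝[>] (0:ℝ)) (𝓝 0) := by
        have := (ENNReal.continuous_ofReal.tendsto 0).comp h4
        rwa [ENNReal.ofReal_zero] at this
      refine ge_of_tendsto h5 ?_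
      have h6 : Ioc (0:ℝ) (1 / 2 ^ (a 1)) ∈ 𝓝[>] (0:ℝ) := Ioc_mem_nhdsGT (by positivity)
      filter_upwards [h6] with r' hr'
      apply hmain x r' hr'.1 hr'.2 s
      intro y hy
      have := hsub hy
      rw [← hzero] at this
      have h7 := this.1
      have h8 := this.2
      constructor <;> linarith [hr'.1]

end Pool.Agent.K4H47.UN
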